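import Mathlib
import Pool.Agent.H951R3.V.V5

set_option autoImplicit false

/-!
From prime ideals of the ring of integers of `ℚ` to prime numbers.
-/

namespace Pool.Agent.H813R3.Abc

open NumberField IsDedekindDomain Height Pool.Agent.H691R3 Pool.Agent.H951R3.V

open Rat.HeightOneSpectrum in
/-- the prime number below a prime ideal -/
noncomputable def pr (v : HeightOneSpectrum (𝓞 ℚ)) : ℕ := natGenerator v

lemma pr_prime (v : HeightOneSpectrum (𝓞 ℚ)) : (pr v).Prime :=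
  Rat.HeightOneSpectrum.prime_natGenerator v

lemma pr_inj : Function.Injective pr := by
  intro v w h
  apply (Rat.HeightOneSpectrum.primesEquiv (R := 𝓞 ℚ)).injective
  exact Subtype.ext h

lemma dvd_iff (v : HeightOneSpectrum (𝓞 ℚ)) (n : ℕ) :
    pr v ∣ n ↔ (n : 𝓞 ℚ) ∈ v.asIdeal := by
  unfold pr
  rw [Rat.HeightOneSpectrum.natGenerator_dvd_iff,
    ← map_natCast (Rat.IsIntegralClosure.intEquiv (𝓞 ℚ)) n, Ideal.apply_mem_of_equiv_iff]

lemma Nv_le (v : HeightOneSpectrum (𝓞 ℚ)) : Nv v ≤ (pr v : ℝ) := by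
  unfold Nv
  have h1 : ((pr v : ℕ) : 𝓞 ℚ) ∈ v.asIdeal := (dvd_iff v (pr v)).1 dvd_rfl
  have h2 : Ideal.absNorm v.asIdeal ∣ Ideal.absNorm (Ideal.span {((pr v : ℕ) : 𝓞 ℚ)}) :=
    Ideal.absNorm_dvd_absNorm_of_le ((Ideal.span_singleton_le_iff_mem _).mpr h1)
  rw [Ideal.absNorm_span_natCast, RingOfIntegers.rank, Module.finrank_self, pow_one] at h2
  exact_mod_cast Nat.le_of_dvd (pr_prime v).pos h2

lemma fv_int_le (v : HeightOneSpectrum (𝓞 ℚ)) (z : ℤ) : fv v (z : ℚ) ≤ 1 := by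
  have h := FinitePlace.norm_le_one ℚ v (z : 𝓞 ℚ)
  rw [fv_apply]
  simpa using h

lemma fv_lt_iff (v : HeightOneSpectrum (𝓞 ℚ)) (z : ℤ) :
    fv v (z : ℚ) < 1 ↔ (z : 𝓞 ℚ) ∈ v.asIdeal := by
  rw [fv_apply]
  have h := FinitePlace.norm_lt_one_iff_mem ℚ v (z : 𝓞 ℚ)
  simpa using h

lemma dvd_of_fv (v : HeightOneSpectrum (𝓞 ℚ)) (z : ℤ) (h : fv v (z : ℚ) ≠ 1) :
    (pr v : ℤ) ∣ z := by
  have h1 : (z : 𝓞 ℚ) ∈ v.asIdeal :=
    (fv_lt_iff v z).1 (lt_of_le_of_ne (fv_int_le v z) h)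
  rw [Int.natCast_dvd, dvd_iff]
  rcases Int.natAbs_eq z with h2 | h2
  · rw [h2] at h1
    simpa using h1
  · rw [h2] at h1
    simpa using h1

/-- the sum of the logarithms of the norms is at most the logarithm of the radical -/
lemma sum_ell_le {n : ℕ} (x : Fin n → ℤ) (hx : ∀ i, x i ≠ 0)
    (R : Finset (HeightOneSpectrum (𝓞 ℚ)))
    (hR : ∀ v ∈ R, ∃ i j, fv v (x i : ℚ) ≠ fv v (x j : ℚ)) :
    ∑ v ∈ R, ell v ≤ Real.log ((∏ p ∈ (∏ i, x i).natAbs.primeFactors, p : ℕ) : ℝ) := by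
  classical
  have hne : (∏ i, x i).natAbs ≠ 0 := by
    rw [Int.natAbs_ne_zero]
    exact Finset.prod_ne_zero_iff.2 fun i _ => hx i
  have h1 : ∑ v ∈ R, ell v ≤ ∑ v ∈ R, Real.log (pr v : ℝ) :=
    Finset.sum_le_sum fun v _ => Real.log_le_log (lt_of_lt_of_le two_pos (two_le_Nv v)) (Nv_le v)
  have h2 : ∑ v ∈ R, Real.log (pr v : ℝ) = ∑ p ∈ R.image pr, Real.log (p : ℝ) := by
    rw [Finset.sum_image fun a _ b _ h => pr_inj h]
  have h3 : R.image pr ⊆ (∏ i, x i).natAbs.primeFactors := by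
    intro p hp
    obtain ⟨v, hv, rfl⟩ := Finset.mem_image.1 hp
    obtain ⟨i, j, hij⟩ := hR v hv
    have h4 : ∃ k, fv v (x k : ℚ) ≠ 1 := by
      by_contra hcon
      push Not at hcon
      exact hij ((hcon i).trans (hcon j).symm)
    obtain ⟨k, hk⟩ := h4
    have h5 := dvd_of_fv v (x k) hk
    rw [Nat.mem_primeFactors]
    refine ⟨pr_prime v, ?_, hne⟩
    rw [← Int.natCast_dvd]
    exact h5.trans (Finset.dvd_prod_of_mem _ (Finset.mem_univ k))
  rw [Nat.cast_prod, Real.log_prod fun p hp => by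
    exact_mod_cast (Nat.prime_of_mem_primeFactors hp).ne_zero]
  refine h1.trans (h2.le.trans (Finset.sum_le_sum_of_subset_of_nonneg h3 fun p hp _ => ?_))
  exact Real.log_nonneg (by exact_mod_cast (Nat.prime_of_mem_primeFactors hp).one_lt.le)

/-- two proportional coprime integer tuples with first coordinates of the same sign are equal -/
lemma eq_of_prop {n : ℕ} (x y : Fin n → ℤ) (hx : Finset.univ.gcd x = 1)
    (hy : Finset.univ.gcd y = 1) (t : ℚ) (h : ∀ i, (x i : ℚ) = t * y i) (i0 : Fin n)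
    (h0 : 0 < x i0 * y i0) : x = y := by
  have h1 : ∀ i, x i * t.den = t.num * y i := by
    intro i
    have h2 := h i
    have h3 : (t.den : ℚ) ≠ 0 := by exact_mod_cast t.den_nz
    have h4 : t = t.num / t.den := (Rat.num_div_den t).symm
    rw [h4] at h2
    have h5 : (x i : ℚ) * t.den = t.num * y i := by
      rw [h2]; field_simp
    exact_mod_cast h5
  have hcop : IsCoprime (t.den : ℤ) t.num := by
    rw [Int.isCoprime_iff_gcd_eq_one]
    have := t.reduced
    rw [Nat.Coprime, Nat.gcd_comm] at this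
    simpa [Int.gcd] using this
  have hd : (t.den : ℤ) ∣ 1 := by
    rw [← hy]
    refine Finset.dvd_gcd fun i _ => ?_
    exact hcop.dvd_of_dvd_mul_left ⟨x i, by rw [← h1 i]; ring⟩
  have hd1 : (t.den : ℤ) = 1 := by
    have := Int.eq_one_of_dvd_one (by positivity) hd
    exact this
  have hn : t.num ∣ 1 := by
    rw [← hx]
    refine Finset.dvd_gcd fun i _ => ?_
    have := h1 i
    rw [hd1, mul_one] at this
    exact ⟨y i, this⟩
  have h6 : ∀ i, x i = t.num * y i := by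
    intro i
    have := h1 i
    rwa [hd1, mul_one] at this
  have hpos : 0 < t.num := by
    have h7 := h6 i0
    rw [h7] at h0
    have h8 : t.num * y i0 * y i0 = t.num * (y i0 * y i0) := by ring
    rw [h8] at h0
    by_contra hneg
    push Not at hneg
    have h9 : 0 ≤ y i0 * y i0 := mul_self_nonneg _
    nlinarith
  have h10 : t.num = 1 := Int.eq_one_of_dvd_one hpos.le hn
  funext i
  rw [h6 i, h10, one_mul]

end Pool.Agent.H813R3.Abc
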