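import Mathlib
import Pool.Agent.H813R3.Voj.Main

set_option autoImplicit false

/-!
Tuples with sum zero and small product of the radicals of the coordinates.
-/

namespace Pool.Agent.H813R3.Abc

open Pool.Agent.H813R3.Voj

lemma exists_drop {n : ℕ} (r : Fin (n + 1) → ℝ) (h1 : ∀ j, 1 ≤ r j) {T : ℝ}
    (hT : ∏ j, r j ≤ T) :
    ∃ i, ∏ j : {j // j ≠ i}, r j.1 ≤ T ^ (1 - 1 / ((n + 1 : ℕ) : ℝ)) := by
  classical
  obtain ⟨i, hi⟩ := Finite.exists_max r
  refine ⟨i, ?_⟩
  have hpos : ∀ j, 0 < r j := fun j => lt_of_lt_of_le one_pos (h1 j)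
  have hT1 : 0 < T := lt_of_lt_of_le (Finset.prod_pos fun j _ => hpos j) hT
  set Q : ℝ := ∏ j : {j // j ≠ i}, r j.1 with hQ
  have hQ0 : 0 < Q := Finset.prod_pos fun j _ => hpos _
  have hsplit : r i * Q = ∏ j, r j := by
    rw [hQ, ← Finset.mul_prod_erase Finset.univ r (Finset.mem_univ i)]
    congr 1
    rw [← Finset.prod_subtype (Finset.univ.erase i) (p := fun j => j ≠ i) (by simp) r]
  have hQle : Q ≤ r i ^ n := by
    rw [hQ]
    calc ∏ j : {j // j ≠ i}, r j.1 ≤ ∏ _j : {j // j ≠ i}, r i :=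
          Finset.prod_le_prod (fun j _ => (hpos _).le) fun j _ => hi _
      _ = r i ^ n := by
          rw [Finset.prod_const, Finset.card_univ]
          congr 1
          rw [Fintype.card_subtype_compl, Fintype.card_fin]
          simp
  have hQn : Q ^ (n + 1) ≤ T ^ n := by
    calc Q ^ (n + 1) = Q ^ n * Q := pow_succ _ _
      _ ≤ Q ^ n * r i ^ n := mul_le_mul_of_nonneg_left hQle (by positivity)
      _ = (r i * Q) ^ n := by rw [mul_pow]; ring
      _ ≤ T ^ n := by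
          rw [hsplit]
          exact pow_le_pow_left₀ (Finset.prod_nonneg fun j _ => (hpos j).le) hT n
  have hn0 : ((n + 1 : ℕ) : ℝ) ≠ 0 := by positivity
  have h2 : Q = (Q ^ (n + 1)) ^ ((1 : ℝ) / ((n + 1 : ℕ) : ℝ)) := by
    rw [← Real.rpow_natCast Q (n + 1), ← Real.rpow_mul hQ0.le, mul_one_div_cancel hn0,
      Real.rpow_one]
  have h3 : T ^ (1 - 1 / ((n + 1 : ℕ) : ℝ)) = (T ^ n) ^ ((1 : ℝ) / ((n + 1 : ℕ) : ℝ)) := by
    rw [← Real.rpow_natCast T n, ← Real.rpow_mul hT1.le]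
    congr 1
    field_simp
    push_cast
    ring
  rw [h3, h2]
  exact Real.rpow_le_rpow (by positivity) hQn (by positivity)

lemma one_le_rho (S : Finset ℕ) (n : ℤ) : (1 : ℝ) ≤ (rho S n : ℝ) := by
  exact_mod_cast rho_pos S n

theorem zero_sum_count (n : ℕ) {δ : ℝ} (hδ : 0 < δ) :
    ∃ C : ℝ, 0 < C ∧ ∀ B : ℝ, 1 ≤ B → ∀ T : ℝ, 0 < T → ∀ E : Finset (Fin (n + 1) → ℤ),
      (∀ x ∈ E, ∑ i, x i = 0) → (∀ x ∈ E, ∀ i, x i ≠ 0) → (∀ x ∈ E, ∀ i, (|x i| : ℝ) ≤ B) →
      (∀ x ∈ E, ∏ i, (rho ∅ (x i) : ℝ) ≤ T) →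
      (E.card : ℝ) ≤ C * T ^ (1 - 1 / ((n + 1 : ℕ) : ℝ)) * B ^ δ := by
  classical
  choose C hC hcount using fun i : Fin (n + 1) =>
    count_sum ∅ {j : Fin (n + 1) // j ≠ i} Empty hδ
  refine ⟨∑ i, C i, Finset.sum_pos (fun i _ => hC i) Finset.univ_nonempty,
    fun B hB T hT E hs hne hle hr => ?_⟩
  set W : ℝ := T ^ (1 - 1 / ((n + 1 : ℕ) : ℝ)) with hW
  have hW0 : 0 ≤ W := Real.rpow_nonneg hT.le _
  set N : ℕ := ⌊B⌋₊ with hN
  have hN1 : 1 ≤ N := Nat.le_floor (by exact_mod_cast hB)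
  have hNB : (N : ℝ) ≤ B := Nat.floor_le (by linarith)
  have hxN : ∀ x ∈ E, ∀ i, |x i| ≤ (N : ℤ) := by
    intro x hx i
    have h := hle x hx i
    have h2 : ((x i).natAbs : ℝ) ≤ B := by
      rw [Nat.cast_natAbs]
      push_cast
      exact h
    have h3 : (x i).natAbs ≤ N := Nat.le_floor h2
    rw [Int.abs_eq_natAbs]
    exact_mod_cast h3
  set Ei : Fin (n + 1) → Finset (Fin (n + 1) → ℤ) := fun i =>
    E.filter fun x => ∏ j : {j // j ≠ i}, (rho ∅ (x j.1) : ℝ) ≤ W with hEi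
  have hcover : E ⊆ Finset.univ.biUnion Ei := by
    intro x hx
    obtain ⟨i, hi⟩ := exists_drop (fun j => (rho ∅ (x j) : ℝ)) (fun j => one_le_rho _ _) (hr x hx)
    rw [Finset.mem_biUnion]
    exact ⟨i, Finset.mem_univ _, Finset.mem_filter.2 ⟨hx, hi⟩⟩
  have hcard : (E.card : ℝ) ≤ ∑ i, ((Ei i).card : ℝ) := by
    have h1 := (Finset.card_le_card hcover).trans Finset.card_biUnion_le
    exact_mod_cast h1
  have hone : ∀ i, ((Ei i).card : ℝ) ≤ C i * W * B ^ δ := by
    intro i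
    set φ : (Fin (n + 1) → ℤ) → ({j : Fin (n + 1) // j ≠ i} ⊕ Empty → ℤ) := fun x =>
      Sum.elim (fun j => x j.1) (fun e => e.elim) with hφ
    have hinj : Set.InjOn φ (Ei i) := by
      intro x hx y hy hxy
      have hxE := (Finset.mem_filter.1 (Finset.mem_coe.1 hx)).1
      have hyE := (Finset.mem_filter.1 (Finset.mem_coe.1 hy)).1
      have hj : ∀ j, j ≠ i → x j = y j := by
        intro j hj
        have := congrFun hxy (Sum.inl ⟨j, hj⟩)
        simpa [hφ] using this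
      have hi : x i = y i := by
        have h1 := hs x hxE
        have h2 := hs y hyE
        rw [← Finset.add_sum_erase _ _ (Finset.mem_univ i)] at h1 h2
        have h3 : ∑ j ∈ Finset.univ.erase i, x j = ∑ j ∈ Finset.univ.erase i, y j :=
          Finset.sum_congr rfl fun j hj' => hj j (Finset.ne_of_mem_erase hj')
        rw [h3] at h1
        linarith
      funext j
      by_cases h : j = i
      · rw [h]; exact hi
      · exact hj j h
    have h1 : ((Ei i).card : ℝ) = (((Ei i).image φ).card : ℝ) := by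
      rw [Finset.card_image_of_injOn hinj]
    rw [h1]
    have h2 := hcount i N hN1 W hW0 ((Ei i).image φ) ?_
    · refine h2.trans ?_
      rw [Fintype.card_empty, Nat.cast_zero, zero_add]
      exact mul_le_mul_of_nonneg_left (Real.rpow_le_rpow (by positivity) hNB hδ.le)
        (mul_nonneg (hC i).le hW0)
    · intro m hm
      obtain ⟨x, hx, rfl⟩ := Finset.mem_image.1 hm
      obtain ⟨hxE, hxW⟩ := Finset.mem_filter.1 hx
      refine ⟨?_, ?_, ?_⟩
      · rintro (j | e)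
        · exact hxN x hxE _
        · exact e.elim
      · intro j
        exact hne x hxE _
      · exact hxW
  calc (E.card : ℝ) ≤ ∑ i, ((Ei i).card : ℝ) := hcard
    _ ≤ ∑ i, C i * W * B ^ δ := Finset.sum_le_sum fun i _ => hone i
    _ = (∑ i, C i) * W * B ^ δ := by rw [Finset.sum_mul, Finset.sum_mul]

/-- for pairwise coprime coordinates the radical of the product is the product of the radicals -/
lemma prod_rho_le {n : ℕ} (x : Fin n → ℤ) (hx : ∀ i, x i ≠ 0)
    (hc : ∀ i j, i ≠ j → IsCoprime (x i) (x j)) :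
    ∏ i, (rho ∅ (x i) : ℝ) ≤ ((∏ p ∈ (∏ i, x i).natAbs.primeFactors, p : ℕ) : ℝ) := by
  classical
  have hne : (∏ i, x i).natAbs ≠ 0 := by
    rw [Int.natAbs_ne_zero]
    exact Finset.prod_ne_zero_iff.2 fun i _ => hx i
  have h1 : ∏ i, rho ∅ (x i) =
      ∏ p ∈ Finset.univ.biUnion fun i => (x i).natAbs.primeFactors, p := by
    rw [Finset.prod_biUnion]
    · refine Finset.prod_congr rfl fun i _ => ?_
      unfold rho
      rw [Finset.sdiff_empty]
    · intro i _ j _ hij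
      have h := hc i j hij
      rw [Int.isCoprime_iff_gcd_eq_one] at h
      exact Nat.Coprime.disjoint_primeFactors h
  have h2 : ∏ i, rho ∅ (x i) ≤ ∏ p ∈ (∏ i, x i).natAbs.primeFactors, p := by
    rw [h1]
    refine Finset.prod_le_prod_of_subset_of_one_le' ?_ fun p hp _ =>
      (Nat.prime_of_mem_primeFactors hp).one_lt.le
    intro p hp
    obtain ⟨i, _, hi⟩ := Finset.mem_biUnion.1 hp
    rw [Nat.mem_primeFactors] at hi ⊢
    refine ⟨hi.1, ?_, hne⟩
    exact hi.2.1.trans (Int.natAbs_dvd_natAbs.2 (Finset.dvd_prod_of_mem _ (Finset.mem_univ i)))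
  exact_mod_cast h2

end Pool.Agent.H813R3.Abc
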